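import Pool.Agent.Helper8.DA.Defs

/-!
The bundle `E` with the connection `A` as coefficients: definitions.
-/

set_option autoImplicit false

open scoped Manifold ContDiff

namespace Pool.Agent.Helper8.DE

open Pool.Agent.Helper8.DC Pool.Agent.Helper8.DA

noncomputable section

/-- The matrix of `w ↦ a × w`. -/
def crossMat (a : R3) : Matrix (Fin 3) (Fin 3) ℝ := Matrix.of fun r t => crossProduct a (Pi.single t 1) r

/-- The term with the curvature `G` of the coefficients: `∑_(r,t,c) (φ_r × φ_t)_c G_(rt) ∧ F_c`. -/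
def curvTerm {N : ℕ} (G : Fin N → Fin N → Fin 4 → Fin 4 → ℝ) (φ : Fin N → R3)
    (F : Fin 4 → Fin 4 → R3) : ℝ :=
  ∑ r, ∑ t, ∑ c, crossProduct (φ r) (φ t) c * wedge (G r t) (cmp F c)

/-- The form of order zero for coefficients in `E`, as a function of `M`: `M r t` in place of
`F_r ∧ F_t`, `φ r` = component of the section in the direction `e_r` of the coefficients. -/
def kE (M : Matrix (Fin 3) (Fin 3) ℝ) (φ : Fin 3 → R3) : ℝ :=
  ∑ r, ((∑ a, φ r a ^ 2) * M.trace - ∑ a, ∑ b, φ r a * M a b * φ r b) +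
    ∑ r, ∑ t, ∑ c, crossProduct (φ r) (φ t) c * ∑ d, crossMat (Pi.single d 1) r t * M d c

end

end Pool.Agent.Helper8.DE
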