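import Pool.Agent.Helper8.DE.Defs
import Pool.Agent.Helper56.DE.Cross
import Pool.Agent.Helper98.DE.AdjCompat

/-!
The bundle `E` with the connection `A` as coefficients.
-/

set_option autoImplicit false

open scoped Manifold ContDiff

namespace Pool.Agent.Helper8.DE

open Pool.Agent.Helper8.DC Pool.Agent.Helper8.DA

noncomputable section

variable {X : Type} [TopologicalSpace X] [ChartedSpace E4 X] [IsManifold (𝓡 4) ∞ X]

/-- The bundle `E` with the connection `A`, as coefficients: transition functions `g i j`,
connection forms `w ↦ A_m × w`. -/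
def adj (P : Bundle X) : Coef P 3 where
  h := P.g
  h_smooth := P.g_smooth
  h_mem i j y hy := (Matrix.mem_specialOrthogonalGroup_iff.1 (P.g_mem i j y hy)).1
  h_cocycle := P.g_cocycle
  B i y m := crossMat (P.A i y m)
  B_smooth i m r t := Pool.Agent.Helper56.DE.crossMat_smooth (P.A_smooth i) m r t
  B_skew _ _ _ _ r t := Pool.Agent.Helper56.DE.crossMat_skew _ r t
  compat := Pool.Agent.Helper98.DE.adj_compat P

end

end Pool.Agent.Helper8.DE
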