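import Pool.Agent.Helper8.DA.Main
import Pool.Agent.Helper8.DE.Defs
import Pool.Agent.Helper50.DE.DivVecG
import Pool.Agent.Helper33.DE.AlgDivG

set_option autoImplicit false

open scoped Manifold ContDiff

namespace Pool.Agent.Helper8.DE

open Pool.Agent.Helper8.DC Pool.Agent.Helper8.DA

noncomputable section

variable {X : Type} [TopologicalSpace X] [ChartedSpace E4 X] [IsManifold (𝓡 4) ∞ X]

theorem trace_wG (P : Bundle X) {N : ℕ} (L : Coef P N) (φ : Sect P L)
    (i : P.ι) (y : E4) (hy : y ∈ (P.c i).target) :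
    LinearMap.trace ℝ E4 (fderiv ℝ (wL P L φ i) y : E4 →ₗ[ℝ] E4) =
      ∑ r, (quad (covL (P.A i) (L.B i) (φ.s i) y r) (curv (P.A i) y) +
        rest (φ.s i y r) (curv (P.A i) y)) +
        curvTerm (mcurv (L.B i) y) (φ.s i y) (curv (P.A i) y) := by
  rw [trace_eq, ← Pool.Agent.Helper50.DE.div_vecG_of (P.A i) (L.B i) (φ.s i) _ (P.c i).open_target
    (P.A_smooth i) (L.B_smooth i) (φ.smooth i) y hy (L.B_skew i y hy)
    Pool.Agent.Helper33.DE.alg_divG]
  refine Finset.sum_congr rfl fun l _ => ?_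
  have hw : DifferentiableAt ℝ (wL P L φ i) y :=
    ((wL_smooth P L φ i).contDiffAt ((P.c i).open_target.mem_nhds hy)).differentiableAt (by simp)
  have := (EuclideanSpace.proj (𝕜 := ℝ) l : E4 →L[ℝ] ℝ).hasFDerivAt.comp y hw.hasFDerivAt
  unfold pd
  have h2 : (fun z => vecL (P.A i) (L.B i) (φ.s i) z l) =
      (EuclideanSpace.proj (𝕜 := ℝ) l : E4 →L[ℝ] ℝ) ∘ (wL P L φ i) := by
    funext z; rfl
  rw [h2, this.fderiv]
  rfl

/-- The divergence argument for coefficients with arbitrary curvature: if the form of order zero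
and the form in the derivatives are nonnegative, then the form of order zero vanishes. -/
theorem mainQ [T2Space X] [CompactSpace X] (P : Bundle X) (hP : P.PositiveDefinite)
    {N : ℕ} (L : Coef P N) (φ : Sect P L)
    (hq : ∀ i, ∀ y ∈ (P.c i).target,
      0 ≤ ∑ r, quad (covL (P.A i) (L.B i) (φ.s i) y r) (curv (P.A i) y))
    (hK : ∀ i, ∀ y ∈ (P.c i).target, 0 ≤ ∑ r, rest (φ.s i y r) (curv (P.A i) y) +
      curvTerm (mcurv (L.B i) y) (φ.s i y) (curv (P.A i) y)) :
    ∀ i, ∀ y ∈ (P.c i).target, ∑ r, rest (φ.s i y r) (curv (P.A i) y) +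
      curvTerm (mcurv (L.B i) y) (φ.s i y) (curv (P.A i) y) = 0 := by
  have htr : ∀ i, ∀ y ∈ (P.c i).target,
      LinearMap.trace ℝ E4 (fderiv ℝ (wL P L φ i) y : E4 →ₗ[ℝ] E4) =
      ∑ r, quad (covL (P.A i) (L.B i) (φ.s i) y r) (curv (P.A i) y) +
        (∑ r, rest (φ.s i y r) (curv (P.A i) y) +
        curvTerm (mcurv (L.B i) y) (φ.s i y) (curv (P.A i) y)) := by
    intro i y hy
    rw [trace_wG P L φ i y hy, Finset.sum_add_distrib, add_assoc]
  have hnn : ∀ i, ∀ y ∈ (P.c i).target,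
      0 ≤ LinearMap.trace ℝ E4 (fderiv ℝ (wL P L φ i) y : E4 →ₗ[ℝ] E4) := by
    intro i y hy
    rw [htr i y hy]
    exact add_nonneg (hq i y hy) (hK i y hy)
  have hcompat : ∀ i j, ∀ y ∈ (P.c j).target, (P.c j).symm y ∈ (P.c i).source →
      0 < (fderiv ℝ (P.c i ∘ (P.c j).symm) y).det ∧
      fderiv ℝ (P.c i ∘ (P.c j).symm) y (wL P L φ j y)
        = (fderiv ℝ (P.c i ∘ (P.c j).symm) y).det • wL P L φ i (P.c i ((P.c j).symm y)) := by
    intro i j y hy hy2
    have hyo : y ∈ P.ov i j := ⟨hy, hy2⟩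
    rw [det_eq]
    refine ⟨det_pos P hP i j y hyo, ?_⟩
    have hlin : fderiv ℝ (P.c i ∘ (P.c j).symm) y (wL P L φ j y) =
        ∑ l, vecL (P.A j) (L.B j) (φ.s j) y l • pd l (P.tr i j) y := by
      have h1 : wL P L φ j y =
          ∑ l, vecL (P.A j) (L.B j) (φ.s j) y l • EuclideanSpace.single l (1 : ℝ) := by
        ext k
        simp [wL, Finset.sum_apply, Pi.single_apply]
      rw [h1, map_sum]
      refine Finset.sum_congr rfl fun l _ => ?_
      rw [map_smul]
      rfl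
    rw [hlin]
    ext n
    have := Pool.Agent.Helper98.DA.vecL_tr P L φ i j y hyo n
    simp only [PiLp.smul_apply, smul_eq_mul, wL, WithLp.ofLp_sum, Finset.sum_apply]
    refine Eq.trans ?_ this
    refine Finset.sum_congr rfl fun l _ => ?_
    simp only [jac]
    rw [mul_comm]
  have hz := Pool.Agent.Helper64.DC.stokes P.c P.c_mem P.cover (wL P L φ)
    (fun i => (wL_smooth P L φ i).of_le (by simp)) hcompat hnn
  intro i y hy
  have h0 := hz i y hy
  rw [htr i y hy] at h0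
  have h1 := hq i y hy
  have h2 := hK i y hy
  linarith

/-- The pinched case. -/
theorem mainK [T2Space X] [CompactSpace X] (P : Bundle X) (hP : P.PositiveDefinite)
    (hpin : P.IsPinched) {N : ℕ} (L : Coef P N) (φ : Sect P L) (hφ : φ.Closed)
    (hK : ∀ i, ∀ y ∈ (P.c i).target, 0 ≤ ∑ r, rest (φ.s i y r) (curv (P.A i) y) +
      curvTerm (mcurv (L.B i) y) (φ.s i y) (curv (P.A i) y)) :
    ∀ i, ∀ y ∈ (P.c i).target, ∑ r, rest (φ.s i y r) (curv (P.A i) y) +
      curvTerm (mcurv (L.B i) y) (φ.s i y) (curv (P.A i) y) = 0 := by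
  refine mainQ P hP L φ (fun i y hy => Finset.sum_nonneg fun r _ => ?_) hK
  exact quad_nonneg _ (skew_curv _ _) (hP i y hy) (hpin i y hy) _
      (Pool.Agent.Helper56.DA.constrL (P.A i) (L.B i) (φ.s i) _ (P.c i).open_target
        (P.A_smooth i) (φ.smooth i) y hy (hφ i y hy) r)

end

end Pool.Agent.Helper8.DE
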