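import Pool.Agent.Helper8.DE.Gen
import Pool.Agent.Helper8.DE.Adj
import Pool.Agent.Helper43.DE.Cross
import Pool.Agent.Helper76.DE.KE

set_option autoImplicit false

open scoped Manifold ContDiff

namespace Pool.Agent.Helper8.DE

open Pool.Agent.Helper8.DC Pool.Agent.Helper8.DA

noncomputable section

/-- A 1-form `a` with `a ∧ C = 0` vanishes, if `C ∧ C ≠ 0`. -/
theorem eq_zero_of_wedge3 (a : Fin 4 → ℝ) (C : Fin 4 → Fin 4 → ℝ)
    (hn : wedge C C ≠ 0) (h : ∀ β, wedge3 a β C = 0) : a = 0 := by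
  have h0 := h (Pi.single 0 1)
  have h1 := h (Pi.single 1 1)
  have h2 := h (Pi.single 2 1)
  have h3 := h (Pi.single 3 1)
  simp only [wedge3, wedge, wed, Pi.single_apply, Fin.isValue, if_true, if_false, Fin.reduceEq,
    mul_one, mul_zero, sub_zero, zero_sub, zero_mul, add_zero, zero_add, neg_mul] at h0 h1 h2 h3
  have hn' : C 0 1 * C 2 3 - C 0 2 * C 1 3 + C 0 3 * C 1 2 ≠ 0 := by
    intro h4
    apply hn
    unfold wedge
    linear_combination 2 * h4
  have key : ∀ k, (C 0 1 * C 2 3 - C 0 2 * C 1 3 + C 0 3 * C 1 2) * a k = 0 := by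
    intro k
    fin_cases k
    · show (C 0 1 * C 2 3 - C 0 2 * C 1 3 + C 0 3 * C 1 2) * a 0 = 0
      linear_combination C 0 1 * h1 + C 0 2 * h2 + C 0 3 * h3
    · show (C 0 1 * C 2 3 - C 0 2 * C 1 3 + C 0 3 * C 1 2) * a 1 = 0
      linear_combination (-C 0 1) * h0 + C 1 2 * h2 + C 1 3 * h3
    · show (C 0 1 * C 2 3 - C 0 2 * C 1 3 + C 0 3 * C 1 2) * a 2 = 0
      linear_combination (-C 0 2) * h0 - C 1 2 * h1 + C 2 3 * h3
    · show (C 0 1 * C 2 3 - C 0 2 * C 1 3 + C 0 3 * C 1 2) * a 3 = 0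
      linear_combination (-C 0 3) * h0 - C 1 3 * h1 - C 2 3 * h2
  funext k
  have := key k
  rcases mul_eq_zero.1 this with h5 | h5
  · exact absurd h5 hn'
  · exact h5

variable {X : Type} [TopologicalSpace X] [ChartedSpace E4 X] [IsManifold (𝓡 4) ∞ X]

/-- On a closed section the order zero form vanishes, so it is a multiple of the identity. -/
theorem scalar_at [T2Space X] [CompactSpace X] (P : Bundle X) (hP : P.PositiveDefinite)
    (hpin : P.IsPinched) (φ : Sect P (adj P)) (hφ : φ.Closed) (i : P.ι) (y : E4)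
    (hy : y ∈ (P.c i).target) (r : Fin 3) :
    φ.s i y r = (φ.s i y 0 0) • (Pi.single r 1 : R3) := by
  have hG : ∀ i, ∀ y ∈ (P.c i).target, ∑ r, rest (φ.s i y r) (curv (P.A i) y) +
      curvTerm (mcurv ((adj P).B i) y) (φ.s i y) (curv (P.A i) y) =
      kE (gram (curv (P.A i) y)) (φ.s i y) := by
    intro i y hy
    have h1 : mcurv ((adj P).B i) y = fun r t l m => crossMat (curv (P.A i) y l m) r t := by
      funext r t l m
      exact Pool.Agent.Helper56.DE.mcurv_cross (P.c i).open_target (P.A_smooth i) hy r t l m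
    rw [h1]
    exact Pool.Agent.Helper43.DE.curvTerm_cross _ _
  have hpos : ∀ i, ∀ y ∈ (P.c i).target, ∀ v : R3, v ≠ 0 →
      0 < ∑ a, ∑ b, v a * gram (curv (P.A i) y) a b * v b := by
    intro i y hy v hv
    exact gram_pos _ (skew_curv _ _) (hP i y hy) v hv
  have h0 := mainK P hP hpin (adj P) φ hφ (fun i y hy => by
    rw [hG i y hy]
    exact Pool.Agent.Helper8.DE.kE_nonneg _ (gram_symm _) (hpos i y hy) _) i y hy
  rw [hG i y hy] at h0
  obtain ⟨s, hs⟩ := Pool.Agent.Helper8.DE.kE_zero _ (gram_symm _) (hpos i y hy) _ h0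
  have h1 : φ.s i y 0 0 = s := by
    rw [hs 0]
    simp
  rw [h1]
  exact hs r

/-- The factor is locally constant in every chart. -/
theorem pd_scalar (P : Bundle X) (hP : P.PositiveDefinite)
    (φ : Sect P (adj P)) (hφ : φ.Closed)
    (hsc : ∀ i, ∀ y ∈ (P.c i).target, ∀ r, φ.s i y r = (φ.s i y 0 0) • (Pi.single r 1 : R3))
    (i : P.ι) (y : E4) (hy : y ∈ (P.c i).target) (m : Fin 4) :
    pd m (fun z => φ.s i z 0 0) y = 0 := by
  have hc := Pool.Agent.Helper56.DA.constrL (P.A i) ((adj P).B i) (φ.s i) _ (P.c i).open_target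
        (P.A_smooth i) (φ.smooth i) y hy (hφ i y hy) 0
  have hs0 : ContDiffOn ℝ ∞ (fun z => φ.s i z 0 0) (P.c i).target :=
    contDiffOn_pi.mp (contDiffOn_pi.mp (φ.smooth i) 0) 0
  have hd : DifferentiableAt ℝ (fun z => φ.s i z 0 0) y :=
    (hs0.contDiffAt ((P.c i).open_target.mem_nhds hy)).differentiableAt (by simp)
  have hev : (fun z => φ.s i z 0) =ᶠ[nhds y]
      fun z => (φ.s i z 0 0) • (Pi.single 0 1 : R3) := by
    filter_upwards [(P.c i).open_target.mem_nhds hy] with z hz
    exact hsc i z hz 0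
  have hcov : ∀ n, covL (P.A i) ((adj P).B i) (φ.s i) y 0 n =
      (pd n (fun z => φ.s i z 0 0) y) • (Pi.single 0 1 : R3) := by
    intro n
    have h1 : pd n (fun z => φ.s i z 0) y =
        (pd n (fun z => φ.s i z 0 0) y) • (Pi.single 0 1 : R3) := by
      unfold pd
      rw [hev.fderiv_eq, fderiv_smul_const hd]
      rfl
    show (pd n (fun z => φ.s i z 0) y + crossProduct (P.A i y n) (φ.s i y 0)) +
      ∑ t, crossMat (P.A i y n) 0 t • φ.s i y t = _
    rw [h1, Finset.sum_congr rfl fun t _ => by rw [hsc i y hy t], hsc i y hy 0]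
    have h2 : crossProduct (P.A i y n) ((φ.s i y 0 0) • (Pi.single 0 1 : R3)) +
        ∑ t, crossMat (P.A i y n) 0 t • ((φ.s i y 0 0) • (Pi.single t 1 : R3)) = 0 := by
      funext a
      fin_cases a <;>
        simp [crossMat, cross_apply, Fin.sum_univ_three, Pi.single_apply] <;> ring
    simp only [Pi.single_eq_same, Pi.smul_apply, smul_eq_mul, mul_one] at h2 ⊢
    rw [add_assoc, h2, add_zero]
  have h3 : ∀ β, wedge3 (fun n => pd n (fun z => φ.s i z 0 0) y) β
      (DC.cmp (curv (P.A i) y) 0) = 0 := by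
    intro β
    have h4 := hc β
    rw [Fin.sum_univ_three] at h4
    have e0 : cm1 (covL (P.A i) ((adj P).B i) (φ.s i) y 0) 0 =
        fun n => pd n (fun z => φ.s i z 0 0) y := by
      funext n
      unfold cm1
      rw [hcov]
      simp
    have e1 : cm1 (covL (P.A i) ((adj P).B i) (φ.s i) y 0) 1 = 0 := by
      funext n
      unfold cm1
      rw [hcov]
      simp
    have e2 : cm1 (covL (P.A i) ((adj P).B i) (φ.s i) y 0) 2 = 0 := by
      funext n
      unfold cm1
      rw [hcov]
      simp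
    rw [e0, e1, e2] at h4
    have e3 : ∀ C : Fin 4 → Fin 4 → ℝ, wedge3 0 β C = 0 := by
      intro C
      simp [wedge3, wedge, wed]
    rw [e3, e3, add_zero, add_zero] at h4
    exact h4
  have h5 := eq_zero_of_wedge3 _ (DC.cmp (curv (P.A i) y) 0)
    (by
      have := (hP i y hy).2.1 0
      exact this.ne') h3
  exact congrFun h5 m

/-- A closed section which is a multiple of the identity everywhere is a locally constant
multiple of the identity. -/
theorem global_of_scalar (P : Bundle X) (hP : P.PositiveDefinite)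
    (φ : Sect P (adj P)) (hφ : φ.Closed)
    (hsc : ∀ i, ∀ y ∈ (P.c i).target, ∀ r, φ.s i y r = (φ.s i y 0 0) • (Pi.single r 1 : R3)) :
    ∃ s : X → ℝ, IsLocallyConstant s ∧
      ∀ i, ∀ y ∈ (P.c i).target, ∀ r, φ.s i y r = s ((P.c i).symm y) • Pi.single r 1 := by
  choose k hk using P.cover
  let s : X → ℝ := fun x => φ.s (k x) ((P.c (k x)) x) 0 0
  have hs : ∀ i, ∀ y ∈ (P.c i).target, s ((P.c i).symm y) = φ.s i y 0 0 := by
    intro i y hy
    have hyo : y ∈ P.ov (k ((P.c i).symm y)) i := ⟨hy, hk _⟩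
    have h1 := φ.compat (k ((P.c i).symm y)) i y hyo 0
    have hg := (Matrix.mem_specialOrthogonalGroup_iff.1
      (P.g_mem (k ((P.c i).symm y)) i y hyo)).1
    rw [Matrix.mem_orthogonalGroup_iff] at hg
    have h2 := congrFun (congrFun hg 0) 0
    rw [Matrix.mul_apply] at h2
    show φ.s (k ((P.c i).symm y)) (P.tr (k ((P.c i).symm y)) i y) 0 0 = _
    rw [h1, Finset.sum_congr rfl fun t _ => by rw [hsc i y hy t]]
    have h3 : (∑ t : Fin 3, (adj P).h (k ((P.c i).symm y)) i y 0 t •
        (P.g (k ((P.c i).symm y)) i y).mulVec ((φ.s i y 0 0) • (Pi.single t 1 : R3))) 0 =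
        φ.s i y 0 0 * ∑ t : Fin 3, P.g (k ((P.c i).symm y)) i y 0 t *
          P.g (k ((P.c i).symm y)) i y 0 t := by
      rw [Finset.sum_apply, Finset.mul_sum]
      refine Finset.sum_congr rfl fun t _ => ?_
      simp only [adj, Matrix.mulVec_smul, Pi.smul_apply, smul_eq_mul, Matrix.mulVec_single_one,
        Matrix.col_apply]
      ring
    have h4 : ∑ t : Fin 3, P.g (k ((P.c i).symm y)) i y 0 t *
          P.g (k ((P.c i).symm y)) i y 0 t = 1 := by
      simpa [Matrix.star_eq_conjTranspose] using h2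
    rw [h3, h4, mul_one]
  refine ⟨s, ?_, ?_⟩
  · rw [IsLocallyConstant.iff_eventually_eq]
    intro x
    have hx : x ∈ (P.c (k x)).source := hk x
    have hy : P.c (k x) x ∈ (P.c (k x)).target := (P.c (k x)).map_source hx
    obtain ⟨ε, hε, hball⟩ := Metric.isOpen_iff.1 (P.c (k x)).open_target _ hy
    have hcd : ContDiffOn ℝ ∞ (fun z => φ.s (k x) z 0 0) (P.c (k x)).target :=
      contDiffOn_pi.mp (contDiffOn_pi.mp (φ.smooth (k x)) 0) 0
    have hconst : ∀ z ∈ Metric.ball (P.c (k x) x) ε,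
        φ.s (k x) z 0 0 = φ.s (k x) (P.c (k x) x) 0 0 := by
      intro z hz
      refine (convex_ball (P.c (k x) x) ε).is_const_of_fderivWithin_eq_zero (𝕜 := ℝ)
        (f := fun z => φ.s (k x) z 0 0) ?_ ?_ hz (Metric.mem_ball_self hε)
      · exact (hcd.differentiableOn (by simp)).mono hball
      · intro w hw
        rw [fderivWithin_of_isOpen Metric.isOpen_ball hw]
        refine ContinuousLinearMap.ext fun v => ?_
        have h1 : v = ∑ l, v l • EuclideanSpace.single l (1 : ℝ) := by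
          ext j
          simp [Finset.sum_apply, Pi.single_apply]
        rw [h1, map_sum]
        refine Finset.sum_eq_zero fun l _ => ?_
        rw [map_smul]
        have h2 := pd_scalar P hP φ hφ hsc (k x) w (hball hw) l
        unfold pd at h2
        rw [h2, smul_zero]
    have hnb : (P.c (k x)).source ∩ (P.c (k x)) ⁻¹' Metric.ball (P.c (k x) x) ε ∈ nhds x :=
      Filter.inter_mem ((P.c (k x)).open_source.mem_nhds hx)
        (((P.c (k x)).continuousAt hx).preimage_mem_nhds (Metric.ball_mem_nhds _ hε))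
    filter_upwards [hnb] with x' hx'
    have h3 := hs (k x) (P.c (k x) x') ((P.c (k x)).map_source hx'.1)
    rw [(P.c (k x)).left_inv hx'.1] at h3
    rw [h3, hconst _ hx'.2]
  · intro i y hy r
    rw [hs i y hy]
    exact hsc i y hy r

/-- **Theorem.** Every closed section of `Λ⁺_A ⊗ E` is a locally constant multiple of `F_A`. -/
theorem mainE [T2Space X] [CompactSpace X] (P : Bundle X) (hP : P.PositiveDefinite)
    (hpin : P.IsPinched) (φ : Sect P (adj P)) (hφ : φ.Closed) :
    ∃ s : X → ℝ, IsLocallyConstant s ∧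
      ∀ i, ∀ y ∈ (P.c i).target, ∀ r, φ.s i y r = s ((P.c i).symm y) • Pi.single r 1 :=
  global_of_scalar P hP φ hφ (scalar_at P hP hpin φ hφ)

end

end Pool.Agent.Helper8.DE
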