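import Pool.Agent.Helper8.DC.Alg

/-!
The pinching condition for symmetric sections: definitions.
-/

set_option autoImplicit false

namespace Pool.Agent.Helper8.DE

open Pool.Agent.Helper8.DC

/-- The weak pinching condition `det (tr M · 1 - 2 M) + 24 det M ≥ 0`. -/
def WeakPinched (F : Fin 4 → Fin 4 → R3) : Prop :=
  0 ≤ ((gram F).trace • (1 : Matrix (Fin 3) (Fin 3) ℝ) - (2 : ℝ) • gram F).det +
    24 * (gram F).det

end Pool.Agent.Helper8.DE
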