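import Pool.Agent.Helper8.DE.Main
import Pool.Agent.Helper8.DE.SymDefs
import Pool.Agent.Helper76.DE.Sym
import Pool.Agent.Helper98.DE.SymRot

set_option autoImplicit false

open scoped Manifold ContDiff

namespace Pool.Agent.Helper8.DE

open Pool.Agent.Helper8.DC Pool.Agent.Helper8.DA

noncomputable section

variable {X : Type} [TopologicalSpace X] [ChartedSpace E4 X] [IsManifold (𝓡 4) ∞ X]

/-- `det (tr M · 1 - 2 M) + 24 det M ≥ 0` everywhere. -/
def IsWeakPinched (P : Bundle X) : Prop :=
  ∀ i, ∀ y ∈ (P.c i).target, WeakPinched (curv (P.A i) y)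

/-- The section of `E ⊗ E` is symmetric. -/
def IsSymm (P : Bundle X) (φ : Sect P (adj P)) : Prop :=
  ∀ i, ∀ y ∈ (P.c i).target, ∀ r a, φ.s i y r a = φ.s i y a r

/-- The covariant derivative of a symmetric section is symmetric. -/
theorem covL_symm (P : Bundle X) (φ : Sect P (adj P)) (hs : IsSymm P φ) (i : P.ι) (y : E4)
    (hy : y ∈ (P.c i).target) (r : Fin 3) (m : Fin 4) (a : Fin 3) :
    covL (P.A i) ((adj P).B i) (φ.s i) y r m a = covL (P.A i) ((adj P).B i) (φ.s i) y a m r := by
  have hcd : ∀ r a, ContDiffOn ℝ ∞ (fun z => φ.s i z r a) (P.c i).target := fun r a =>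
    contDiffOn_pi.mp (contDiffOn_pi.mp (φ.smooth i) r) a
  have hd : ∀ r, DifferentiableAt ℝ (fun z => φ.s i z r) y := fun r =>
    ((contDiffOn_pi.mp (φ.smooth i) r).contDiffAt
      ((P.c i).open_target.mem_nhds hy)).differentiableAt (by simp)
  have hpd : ∀ r a, pd m (fun z => φ.s i z r) y a = pd m (fun z => φ.s i z r a) y := fun r a =>
    ph_pd_comp (hd r) m a
  have hpds : pd m (fun z => φ.s i z r a) y = pd m (fun z => φ.s i z a r) y := by
    refine ph_pd_congr ?_ m
    filter_upwards [(P.c i).open_target.mem_nhds hy] with z hz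
    exact hs i z hz r a
  have hc : ∀ r a : Fin 3, covL (P.A i) ((adj P).B i) (φ.s i) y r m a =
      pd m (fun z => φ.s i z r a) y + crossProduct (P.A i y m) (φ.s i y r) a +
        crossProduct (P.A i y m) (φ.s i y a) r := by
    intro r a
    show (pd m (fun z => φ.s i z r) y + crossProduct (P.A i y m) (φ.s i y r)) a +
      (∑ t, crossMat (P.A i y m) r t • φ.s i y t) a = _
    rw [Pi.add_apply, hpd, Finset.sum_apply]
    congr 1
    have h1 : ∀ t, (crossMat (P.A i y m) r t • φ.s i y t) a =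
        crossMat (P.A i y m) r t * φ.s i y a t := by
      intro t
      rw [Pi.smul_apply, smul_eq_mul, hs i y hy t a]
    rw [Finset.sum_congr rfl fun t _ => h1 t]
    fin_cases r <;> simp [crossMat, cross_apply, Fin.sum_univ_three, Pi.single_apply] <;> ring
  rw [hc, hc, hpds]
  ring

/-- On a symmetric closed section the order zero form vanishes, so it is a multiple of the
identity. -/
theorem scalar_atS [T2Space X] [CompactSpace X] (P : Bundle X) (hP : P.PositiveDefinite)
    (hpin : IsWeakPinched P) (φ : Sect P (adj P)) (hs : IsSymm P φ) (hφ : φ.Closed) (i : P.ι)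
    (y : E4) (hy : y ∈ (P.c i).target) (r : Fin 3) :
    φ.s i y r = (φ.s i y 0 0) • (Pi.single r 1 : R3) := by
  have hG : ∀ i, ∀ y ∈ (P.c i).target, ∑ r, rest (φ.s i y r) (curv (P.A i) y) +
      curvTerm (mcurv ((adj P).B i) y) (φ.s i y) (curv (P.A i) y) =
      kE (gram (curv (P.A i) y)) (φ.s i y) := by
    intro i y hy
    have h1 : mcurv ((adj P).B i) y = fun r t l m => crossMat (curv (P.A i) y l m) r t := by
      funext r t l m
      exact Pool.Agent.Helper56.DE.mcurv_cross (P.c i).open_target (P.A_smooth i) hy r t l m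
    rw [h1]
    exact Pool.Agent.Helper43.DE.curvTerm_cross _ _
  have hpos : ∀ i, ∀ y ∈ (P.c i).target, ∀ v : R3, v ≠ 0 →
      0 < ∑ a, ∑ b, v a * gram (curv (P.A i) y) a b * v b := by
    intro i y hy v hv
    exact gram_pos _ (skew_curv _ _) (hP i y hy) v hv
  have h0 := mainQ P hP (adj P) φ (fun i y hy =>
    Pool.Agent.Helper98.DE.sym_nonneg_of sym_diag _ (skew_curv _ _) (hP i y hy) (hpin i y hy) _
      (fun r m a => covL_symm P φ hs i y hy r m a)
      (fun r => Pool.Agent.Helper56.DA.constrL (P.A i) ((adj P).B i) (φ.s i) _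
        (P.c i).open_target (P.A_smooth i) (φ.smooth i) y hy (hφ i y hy) r))
    (fun i y hy => by
      rw [hG i y hy]
      exact kE_nonneg _ (Pool.Agent.Helper8.DC.gram_symm _) (hpos i y hy) _) i y hy
  rw [hG i y hy] at h0
  obtain ⟨s, hs⟩ := kE_zero _ (Pool.Agent.Helper8.DC.gram_symm _) (hpos i y hy) _ h0
  have h1 : φ.s i y 0 0 = s := by
    rw [hs 0]
    simp
  rw [h1]
  exact hs r

/-- **Theorem.** Every symmetric closed section of `Λ⁺_A ⊗ E` is a locally constant multiple of
`F_A`, if `det (tr M · 1 - 2 M) + 24 det M ≥ 0`. -/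
theorem mainS [T2Space X] [CompactSpace X] (P : Bundle X) (hP : P.PositiveDefinite)
    (hpin : IsWeakPinched P) (φ : Sect P (adj P)) (hs : IsSymm P φ) (hφ : φ.Closed) :
    ∃ s : X → ℝ, IsLocallyConstant s ∧
      ∀ i, ∀ y ∈ (P.c i).target, ∀ r, φ.s i y r = s ((P.c i).symm y) • Pi.single r 1 :=
  global_of_scalar P hP φ hφ (scalar_atS P hP hpin φ hs hφ)

end

end Pool.Agent.Helper8.DE
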